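import Mathlib
import Pool.Agent.MP_4403b8_ag.Defs
import Pool.Agent.MP_4403b8_ag.Embed

/-!
Every pair of distinct monomial ideals of colength `n` lies on an embedded projective line in the
Hilbert scheme of `n` points of the plane.
-/

set_option autoImplicit false

namespace Pool.Agent.Results.MP_4403b8_ag.AllPairs

open Pool.Agent.MP_4403b8_ag AlgebraicGeometry CategoryTheory
open scoped Polynomial

theorem result (n : ℕ) (hn : 1 ≤ n) (I J : Ideal (MvPolynomial (Fin 2) ℂ))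
    (hI : IsMonomialIdeal I) (hJ : IsMonomialIdeal J)
    (hIn : Module.finrank ℂ (MvPolynomial (Fin 2) ℂ ⧸ I) = n)
    (hJn : Module.finrank ℂ (MvPolynomial (Fin 2) ℂ ⧸ J) = n) (hIJ : I ≠ J) :
    (∃ F G : Ideal (MvPolynomial (Fin 2) ℂ[X]), IsHilbPt n F ∧ IsHilbPt n G ∧
      (∀ (A : Type) [CommRing A] [Algebra ℂ A] (a b : A),
        (fib F a = fib F b ↔ a = b) ∧ (fib G a = fib G b ↔ a = b) ∧
          (fib F a = fib G b ↔ a * b = 1)) ∧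
      fib F (0 : ℂ) = I ∧ fib G (0 : ℂ) = J) ∧
    ∀ (H : Scheme.{0}) (s : H ⟶ Spec (.of ℂ))
      (u : ∀ A : CommRingCat.{0}, (Spec A ⟶ H) → Ideal (MvPolynomial (Fin 2) A)),
      IsHilbertScheme n H s u →
      ∃ φ : P1 ⟶ H, IsClosedImmersion φ ∧ φ ≫ s = P1toSpec ∧
        (∃ p : Spec (.of ℂ) ⟶ P1, p ≫ P1toSpec = 𝟙 _ ∧ u (.of ℂ) (p ≫ φ) = I) ∧
        (∃ q : Spec (.of ℂ) ⟶ P1, q ≫ P1toSpec = 𝟙 _ ∧ u (.of ℂ) (q ≫ φ) = J) := by
  obtain ⟨S, rfl⟩ := hI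
  obtain ⟨T, rfl⟩ := hJ
  have h := joined_monI hn ((finrank_monI ℂ S).symm.trans hIn) ((finrank_monI ℂ T).symm.trans hJn)
    hIJ
  refine ⟨?_, h.closedImmersion⟩
  obtain ⟨F, G, hF, hG, h⟩ := h
  exact ⟨F, G, hF.frame.some.isHilbPt, hG.frame.some.isHilbPt, h⟩

end Pool.Agent.Results.MP_4403b8_ag.AllPairs
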